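import Pool.Agent.H15.TG.Targets

/-!
Row DTI of the board tga_modules (MP_51eb24_ag).
-/

set_option autoImplicit false

namespace Pool.Agent.H19.TG

open MvPolynomial Pool.Agent.H2.ST Pool.Agent.H15.TG

/-- components of an element which commutes with an element of weight zero -/
lemma cmp_comm {k : Type} [Field k] {m : ℕ} {Γ : Type} [AddCommGroup Γ]
    {W : Γ → Submodule k (Pol k m)} (h : PGr W) {a g : Pol k m} (hg : g ∈ W 0)
    (hag : br a g = 0) (χ : Γ) : br (cmp h.toGr a χ) g = 0 := by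
  classical
  set C' : Γ →₀ Pol k m := (cmp h.toGr a).mapRange (fun x => br x g) (zero_br g) with hC'
  have h1 : ∀ b, C' b ∈ W b := by
    intro b
    rw [hC', Finsupp.mapRange_apply]
    have h2 := h.pbr _ _ _ _ (cmp_mem h.toGr a b) hg
    rwa [add_zero] at h2
  have h3 : (C'.sum fun _ x => x) = 0 := by
    rw [hC', Finsupp.sum_mapRange_index (fun _ => rfl)]
    have h4 : (cmp h.toGr a).sum (fun _ x => br x g) = br ((cmp h.toGr a).sum fun _ x => x) g := by
      unfold Finsupp.sum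
      rw [sum_br]
    rw [h4, cmp_sum, hag]
  have h5 := h.ind C' h1 h3
  have h6 := congrArg (fun F : Γ →₀ Pol k m => F χ) h5
  simp only [hC', Finsupp.mapRange_apply, Finsupp.coe_zero, Pi.zero_apply] at h6
  exact h6

/-- Row DTI. -/
theorem pf_DTI (hPSK : T_PSK) (hPSG : T_PSG) (hPSX : T_PSX) (hKNG : T_KNG) (hKLO : T_KLO)
    (hZZR : T_ZZR) (hCOA : T_COA) (hEUL : T_EUL) : T_DTI := by
  classical
  intro k _ _ _ m d Γ _ W y w S ϖ u v c Θ e h hA hd hcard hΘ hsp he hrel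
  obtain ⟨-, -, p3, p4⟩ := hPSK k m Γ W w S ϖ u v c h
  obtain ⟨-, g2, -, g4⟩ := hPSG k m Γ W w S ϖ u v c h
  obtain ⟨κ, hκ⟩ := hPSX k m Γ W y w S ϖ u v c h hA
  have h' : PGr (co W Θ) := hCOA k m Γ (Fin d → ℤ) W Θ h.toPGr
  have hle : ∀ (χ : Γ) (x : Pol k m), x ∈ W χ → x ∈ co W Θ (Θ χ) := fun χ x hx => le_co W Θ χ hx
  have hu0 : ∀ i, S i → u i ∈ co W Θ 0 ∧ v i ∈ co W Θ 0 := by
    intro i hi
    have h1 := hle _ _ (h.par i hi).hu
    have h2 := hle _ _ (h.par i hi).hv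
    rw [map_neg] at h2
    rw [hΘ i hi] at h1 h2
    rw [neg_zero] at h2
    exact ⟨h1, h2⟩
  have hA' : Ada (co W Θ) y (fun i => Θ (w i)) := by
    refine ⟨fun i => hle _ _ (hA.hl i), fun i => ?_, hA.hz, hA.lr, hA.ll, hA.rr⟩
    have h1 := hle _ _ (hA.hr i)
    rwa [map_neg] at h1
  have hnS : ∀ i, Θ (w i) ≠ 0 → ¬ S i := fun i hi hS => hi (hΘ i hS)
  have hrel' : ∑ i, e i • Θ (w i) = 0 := by
    have h1 := congrArg Θ hrel
    rw [map_sum, map_zero] at h1
    rw [← h1]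
    exact Finset.sum_congr rfl (fun i _ => (map_zsmul Θ (e i) (w i)).symm)
  -- the Hamiltonians
  have hH : ∀ j : Fin d, ∃ H ∈ co W Θ 0, constantCoeff H = 0 ∧
      ∀ a, ∀ f ∈ co W Θ a, br H f = ((a j : ℤ) : k) • f := by
    intro j
    exact hEUL k m (Fin d → ℤ) (co W Θ)
      ((Int.castAddHom k).comp (Pi.evalAddMonoidHom (fun _ : Fin d => ℤ) j)) h'
  choose H H0 Hc HE using hH
  have hKSmem : ∀ x : Pol k m, (∀ i, S i → br x (u i) = 0 ∧ br x (v i) = 0) → x ∈ KS S u v := by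
    intro x hx
    unfold KS
    rw [mem_Cen]
    rintro g ⟨i, hi, rfl | rfl⟩
    · exact (hx i hi).1
    · exact (hx i hi).2
  have hKSmem' : ∀ x ∈ KS S u v, ∀ i, S i → br x (u i) = 0 ∧ br x (v i) = 0 := by
    intro x hx i hi
    unfold KS at hx
    rw [mem_Cen] at hx
    exact ⟨hx _ ⟨i, hi, Or.inl rfl⟩, hx _ ⟨i, hi, Or.inr rfl⟩⟩
  have hKd : Kd (co W Θ) (KS S u v) y (fun i => Θ (w i)) κ := by
    refine ⟨h', hA', hd, ?_, ?_, ⟨e, fun i hi => he i (hnS i hi), hrel'⟩, hsp⟩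
    · intro i hi
      obtain ⟨⟨k1, k2, k3⟩, -⟩ := hκ i (hnS i hi)
      exact ⟨k1, hle _ _ k2, k3⟩
    · intro i hi
      obtain ⟨-, k1, k2, k3⟩ := hκ i (hnS i hi)
      have h1 := hle _ _ k2
      rw [map_neg] at h1
      exact ⟨k1, h1, k3⟩
  obtain ⟨-, -, n3, n4⟩ := hKNG k m d (co W Θ) (KS S u v) y (fun i => Θ (w i)) κ hKd
  have hspan : ∀ i, Θ (w i) ≠ 0 → ∀ l : Fin d → k,
      (∀ j, j ≠ i → ∑ t, l t * ((Θ (w j) t : ℤ) : k) = 0) → l = 0 := by
    intro i hi l hl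
    refine hsp l (fun j => ?_)
    by_cases hj : j = i
    · subst hj
      have h1 : ∀ t, ∑ i, e i * Θ (w i) t = 0 := by
        intro t
        have h2 := congrFun hrel' t
        rw [Finset.sum_apply] at h2
        simpa using h2
      have h3 : ∑ i, ((e i : ℤ) : k) * ∑ t, l t * ((Θ (w i) t : ℤ) : k) = 0 := by
        calc ∑ i, ((e i : ℤ) : k) * ∑ t, l t * ((Θ (w i) t : ℤ) : k)
            = ∑ t, l t * ∑ i, ((e i * Θ (w i) t : ℤ) : k) := by
              simp_rw [Finset.mul_sum]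
              rw [Finset.sum_comm]
              refine Finset.sum_congr rfl (fun t _ => Finset.sum_congr rfl (fun i _ => ?_))
              push_cast
              ring
          _ = 0 := by
              refine Finset.sum_eq_zero (fun t _ => ?_)
              rw [← Int.cast_sum, h1 t, Int.cast_zero, mul_zero]
      rw [Finset.sum_eq_single j] at h3
      · have h4 : ((e j : ℤ) : k) ≠ 0 := by exact_mod_cast he j (hnS j hi)
        exact (mul_eq_zero.1 h3).resolve_left h4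
      · intro i' _ hi'
        rw [hl i' hi', mul_zero]
      · intro hn
        exact absurd (Finset.mem_univ j) hn
    · exact hl j hj
  refine ⟨H, ?_⟩
  exact {
    toPGr := h'
    dpos := hd
    fc := p4
    bk := g2
    cp := by
      intro a ha
      refine ⟨cmp h'.toGr a, fun χ => ⟨cmp_mem h'.toGr a χ, ?_⟩, cmp_sum h'.toGr a⟩
      refine hKSmem _ (fun i hi => ?_)
      obtain ⟨a1, a2⟩ := hKSmem' a ha i hi
      exact ⟨cmp_comm h' (hu0 i hi).1 a1 χ, cmp_comm h' (hu0 i hi).2 a2 χ⟩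
    tr := by
      intro ι _ F hF hI
      have h1 := p3 ι F hF hI
      omega
    cn := g4
    hK := by
      intro j
      refine hKSmem _ (fun i hi => ?_)
      rw [HE j 0 _ (hu0 i hi).1, HE j 0 _ (hu0 i hi).2]
      simp
    h0 := H0
    hc := Hc
    eu := fun j χ g _ hg => HE j χ g hg
    zz := fun χ p Q hχ hp _ hpW hdiv =>
      hZZR k m d (co W Θ) y (fun i => Θ (w i)) H h' hA' Hc (fun j χ g hg => HE j χ g hg) hspan
        χ p Q hχ hp hpW hdiv
    ng := n3
    sp := n4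
    lo := hKLO k m d (co W Θ) (KS S u v) y (fun i => Θ (w i)) κ hKd }

end Pool.Agent.H19.TG
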