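import Pool.Agent.H15.TG.Targets

/-!
Row FCP of the board tga_modules (MP_51eb24_ag).
-/

set_option autoImplicit false

namespace Pool.Agent.H19.TG

open MvPolynomial Pool.Agent.H2.ST Pool.Agent.H15.TG

/-- a variable minus a constant is irreducible: one factor is constant -/
lemma lin_factor {k σ : Type} [Field k] (s : σ) (c : k) {Q Q' : MvPolynomial σ k}
    (h : Q * Q' = X s - C c) : (∃ q, Q = C q) ∨ ∃ q, Q' = C q := by
  have hne : (X s - C c : MvPolynomial σ k) ≠ 0 := by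
    intro h0
    have h1 := congrArg (fun p : MvPolynomial σ k => eval (fun _ => c + 1) p) h0
    simp at h1
  have hQ : Q ≠ 0 := by
    rintro rfl
    rw [zero_mul] at h
    exact hne h.symm
  have hQ' : Q' ≠ 0 := by
    rintro rfl
    rw [mul_zero] at h
    exact hne h.symm
  have h1 : totalDegree (Q * Q') = totalDegree Q + totalDegree Q' :=
    totalDegree_mul_of_isDomain hQ hQ'
  have h2 : totalDegree (X s - C c : MvPolynomial σ k) ≤ 1 := by
    refine le_trans (totalDegree_sub _ _) ?_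
    rw [totalDegree_C, totalDegree_X]
    exact le_of_eq (max_eq_left (Nat.zero_le 1))
  rw [h] at h1
  rcases Nat.eq_zero_or_pos (totalDegree Q) with h3 | h3
  · exact Or.inl ⟨_, (totalDegree_eq_zero_iff_eq_C.1 h3)⟩
  · have h4 : totalDegree Q' = 0 := by omega
    exact Or.inr ⟨_, (totalDegree_eq_zero_iff_eq_C.1 h4)⟩

/-- Row FCP. -/
theorem pf_FCP (hSON : T_SON) (hCZF : T_CZF) (hIND : T_IND) (hCFC : T_CFC) (hFAC : T_FAC) :
    T_FCP := by
  intro k _ _ _ m d W K H f π ψ a c0 hM c hc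
  have hG := hM.toGd
  have hF := hG.toFd
  have hCc : (C c : Pol k m) ∈ W 0 := algebraMap_mem_gr hF.toGr c
  have hW0 : f - C c ∈ W 0 := Submodule.sub_mem _ hF.f0 hCc
  have hCf : f - C c ∈ Cf K f := by
    rw [mem_Cf]
    refine ⟨K.sub_mem hF.fK (K.algebraMap_mem c), ?_⟩
    rw [br_sub, br_self, br_C, sub_zero]
  have hne : f - C c ≠ 0 := by
    intro h0
    have h1 := congrArg constantCoeff h0
    rw [map_sub, hF.fc0, constantCoeff_C, map_zero, zero_sub, neg_eq_zero] at h1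
    exact hc h1
  have hconst : ∀ q : k, f - C c ≠ C q := by
    intro q h0
    have h1 : f = C (q + c) := by
      rw [C_add, ← h0]
      ring
    have h2 := hF.fc0
    rw [h1, constantCoeff_C] at h2
    rw [h2, C_0] at h1
    exact hF.fn h1
  have hnu : ¬ IsUnit (f - C c) := by
    intro hu
    obtain ⟨q, -, hq⟩ := (MvPolynomial.isUnit_iff_eq_C_of_isReduced).1 hu
    exact hconst q hq
  obtain ⟨ρ, hρi, ρ', hρ'⟩ := WfDvdMonoid.exists_irreducible_factor hnu hne
  have hρ : Prime ρ := hρi.prime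
  have hne2 : ρ * ρ' ≠ 0 := by rwa [← hρ']
  obtain ⟨hρC, hρC'⟩ := hCFC k m d W K H f hF ρ ρ' hne2 (by rwa [← hρ'])
  obtain ⟨θ, θ', hθ, hθ', hsum⟩ := hFAC k (Pol k m) (Fin d → ℤ) W hF.toGr 0 ρ ρ'
    (by rwa [← hρ']) hne2
  have hθ0 : θ = 0 := by
    by_contra hθn
    have hS := hSON k m d W K H f hG θ ρ hθn hρ hρC hθ
    have h1 : ρ ∣ f := hS.2.2.2.1
    have h2 : ρ ∣ C c := by
      have h3 : (C c : Pol k m) = f - (f - C c) := by ring
      rw [h3]
      exact dvd_sub h1 (Dvd.intro _ hρ'.symm)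
    have h4 : IsUnit (C c : Pol k m) := (IsUnit.mk0 c hc).map C
    exact hρ.not_isUnit (isUnit_of_dvd_unit h2 h4)
  subst hθ0
  rw [zero_add] at hsum
  subst hsum
  obtain ⟨Q, hQ⟩ := hCZF k m d W K H f hG ρ hρC hθ
  obtain ⟨Q', hQ'⟩ := hCZF k m d W K H f hG ρ' hρC' hθ'
  have hI : Function.Injective
      (aeval (Sum.elim (fun _ : Unit => f) H) : MvPolynomial (Unit ⊕ Fin d) k → Pol k m) :=
    hIND k m d W K H f hF
  have hprod : Q * Q' = X (Sum.inl ()) - C c := by
    apply hI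
    rw [map_mul, hQ, hQ', ← hρ', map_sub, aeval_X, Sum.elim_inl, aeval_C, algebraMap_eq]
  rcases lin_factor _ _ hprod with ⟨q, hq⟩ | ⟨q, hq⟩
  · exfalso
    rw [hq, aeval_C, algebraMap_eq] at hQ
    by_cases hq0 : q = 0
    · rw [hq0, C_0] at hQ
      exact hρ.ne_zero hQ.symm
    · have h4 : IsUnit (C q : Pol k m) := (IsUnit.mk0 q hq0).map C
      rw [hQ] at h4
      exact hρ.not_isUnit h4
  · rw [hq, aeval_C, algebraMap_eq] at hQ'
    have hq0 : q ≠ 0 := by
      rintro rfl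
      rw [C_0] at hQ'
      rw [← hQ', mul_zero] at hne2
      exact hne2 rfl
    have h4 : IsUnit (C q : Pol k m) := (IsUnit.mk0 q hq0).map C
    rw [hρ', ← hQ']
    exact ((associated_mul_unit_right ρ (C q) h4).prime_iff).1 hρ

end Pool.Agent.H19.TG
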