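import Pool.Agent.H15.TG.Targets

/-!
Row FNC of the board tga_modules (MP_51eb24_ag).
-/

set_option autoImplicit false

namespace Pool.Agent.H19.TG

open MvPolynomial Pool.Agent.H2.ST Pool.Agent.H15.TG

/-- Row FNC. -/
theorem pf_FNC (hPSK : T_PSK) : T_FNC := by
  classical
  intro k _ _ m d Γ _ W w S ϖ u v c z h hcard hz hzw hlr hll hrr hgen
  obtain ⟨-, hadj, -, -⟩ := hPSK k m Γ W w S ϖ u v c h
  have hKS : ∀ s, ∀ i, S i → br (z s) (u i) = 0 ∧ br (z s) (v i) = 0 := by
    intro s i hi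
    have h1 := hz s
    unfold KS at h1
    rw [mem_Cen] at h1
    exact ⟨h1 _ ⟨i, hi, Or.inl rfl⟩, h1 _ ⟨i, hi, Or.inr rfl⟩⟩
  have hKS' : ∀ s, ∀ i, S i → br (u i) (z s) = 0 ∧ br (v i) (z s) = 0 := by
    intro s i hi
    obtain ⟨h1, h2⟩ := hKS s i hi
    exact ⟨by rw [br_anti, h1, neg_zero], by rw [br_anti, h2, neg_zero]⟩
  -- weights
  choose χ hχ using hzw
  have hneg : ∀ i : Fin (d + 1), χ (Sum.inr i) = - χ (Sum.inl i) := by
    intro i
    have h1 := h.pbr _ _ _ _ (hχ (Sum.inl i)) (hχ (Sum.inr i))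
    rw [hlr i i, if_pos rfl] at h1
    have h2 := wt_uniq h.toGr h1 h.one one_ne_zero
    exact (neg_eq_of_add_eq_zero_right h2).symm
  -- index set
  let ι : Type := Fin (d + 1) ⊕ {i : Fin m // S i}
  have hc : Fintype.card (Fin m) = Fintype.card ι := by
    rw [Fintype.card_fin, Fintype.card_sum, Fintype.card_fin, ← Nat.card_eq_fintype_card]
    exact hcard.symm
  let E : Fin m ≃ ι := Fintype.equivOfCardEq hc
  let U : ι → Pol k m := Sum.elim (fun j => z (Sum.inl j)) (fun l => u l.1)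
  let V : ι → Pol k m := Sum.elim (fun j => z (Sum.inr j)) (fun l => (-(c l.1)⁻¹) • v l.1)
  let ω : ι → Γ := Sum.elim (fun j => χ (Sum.inl j)) (fun l => w l.1)
  have hU : ∀ a, U a ∈ W (ω a) := by
    rintro (j | l)
    · exact hχ (Sum.inl j)
    · exact (h.par l.1 l.2).hu
  have hV : ∀ a, V a ∈ W (-ω a) := by
    rintro (j | l)
    · change z (Sum.inr j) ∈ W (-χ (Sum.inl j))
      rw [← hneg j]
      exact hχ (Sum.inr j)
    · change (-(c l.1)⁻¹) • v l.1 ∈ W (-w l.1)
      exact Submodule.smul_mem _ _ (h.par l.1 l.2).hv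
  have hUV : ∀ a b, br (U a) (V b) = if a = b then 1 else 0 := by
    rintro (i | l) (j | l')
    · change br (z (Sum.inl i)) (z (Sum.inr j)) = _
      rw [hlr]
      by_cases hij : i = j
      · rw [if_pos hij, if_pos (by rw [hij])]
      · rw [if_neg hij, if_neg (fun hh => hij (Sum.inl_injective hh))]
    · change br (z (Sum.inl i)) ((-(c l'.1)⁻¹) • v l'.1) = _
      rw [br_smul, (hKS _ l'.1 l'.2).2, smul_zero, if_neg (by simp)]
    · change br (u l.1) (z (Sum.inr j)) = _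
      rw [(hKS' _ l.1 l.2).1, if_neg (by simp)]
    · change br (u l.1) ((-(c l'.1)⁻¹) • v l'.1) = _
      rw [br_smul]
      by_cases hll' : l = l'
      · subst hll'
        rw [if_pos rfl, br_anti, (h.par l.1 l.2).vu, smul_neg, neg_smul, neg_neg, smul_eq_C_mul,
          ← C_mul, inv_mul_cancel₀ (h.par l.1 l.2).hc, C_1]
      · rw [if_neg (fun hh => hll' (Sum.inr_injective hh)),
          h.uv l.1 l'.1 l.2 l'.2 (fun hh => hll' (Subtype.ext hh)), smul_zero]
  have hUU : ∀ a b, br (U a) (U b) = 0 := by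
    rintro (i | l) (j | l')
    · exact hll i j
    · exact (hKS _ l'.1 l'.2).1
    · exact (hKS' _ l.1 l.2).1
    · exact h.uu l.1 l'.1 l.2 l'.2
  have hVV : ∀ a b, br (V a) (V b) = 0 := by
    rintro (i | l) (j | l')
    · exact hrr i j
    · change br (z (Sum.inr i)) ((-(c l'.1)⁻¹) • v l'.1) = 0
      rw [br_smul, (hKS _ l'.1 l'.2).2, smul_zero]
    · change br ((-(c l.1)⁻¹) • v l.1) (z (Sum.inr j)) = 0
      rw [smul_br, (hKS' _ l.1 l.2).2, smul_zero]
    · change br ((-(c l.1)⁻¹) • v l.1) ((-(c l'.1)⁻¹) • v l'.1) = 0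
      rw [smul_br, br_smul, h.vv l.1 l'.1 l.2 l'.2, smul_zero, smul_zero]
  let Z : Fin m ⊕ Fin m → Pol k m := Sum.elim (fun i => U (E i)) (fun i => V (E i))
  have hZU : ∀ a, U a ∈ Algebra.adjoin k (Set.range Z) := by
    intro a
    refine Algebra.subset_adjoin ⟨Sum.inl (E.symm a), ?_⟩
    change U (E (E.symm a)) = U a
    rw [E.apply_symm_apply]
  have hZV : ∀ a, V a ∈ Algebra.adjoin k (Set.range Z) := by
    intro a
    refine Algebra.subset_adjoin ⟨Sum.inr (E.symm a), ?_⟩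
    change V (E (E.symm a)) = V a
    rw [E.apply_symm_apply]
  refine ⟨Z, fun i => ω (E i), fun i => hU _, fun i => hV _, ?_, ?_, ?_, ?_⟩
  · intro i j
    change br (U (E i)) (V (E j)) = _
    rw [hUV]
    by_cases hij : i = j
    · rw [if_pos hij, if_pos (by rw [hij])]
    · rw [if_neg hij, if_neg (fun hh => hij (E.injective hh))]
  · intro i j
    exact hUU _ _
  · intro i j
    exact hVV _ _
  · intro f
    refine Algebra.adjoin_le ?_ (hadj f)
    rintro g (hg | ⟨i, hi, rfl | rfl⟩)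
    · refine Algebra.adjoin_le ?_ (hgen g hg)
      rintro _ ⟨s | s, rfl⟩
      · exact hZU (Sum.inl s)
      · exact hZV (Sum.inl s)
    · exact hZU (Sum.inr ⟨i, hi⟩)
    · have h1 : v i = (-(c i)) • V (Sum.inr ⟨i, hi⟩) := by
        change v i = (-(c i)) • ((-(c i)⁻¹) • v i)
        rw [smul_smul, neg_mul_neg, mul_inv_cancel₀ (h.par i hi).hc, one_smul]
      rw [h1]
      exact Subalgebra.smul_mem _ (hZV _) _

end Pool.Agent.H19.TG
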